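import Pool.Agent.Helper37.KD.DefsC
import Pool.Agent.Helper37.KD.St.A5
import Pool.Agent.Helper37.KD.St.C1
import Pool.Agent.Helper37.KD.St.C2
import Pool.Agent.Helper37.KD.St.C4

/-! KD Part I, piece C5 -/

namespace KD.I.C5

open Finset

/-- weighted Cauchy-Schwarz -/
theorem cs_weight {G : Type*} [Fintype G] (u m g : G → ℝ) (hu : ∀ z, 0 < u z) (A B : ℝ)
    (hA : ∑ z, m z ^ 2 / u z ≤ A) (hB : ∑ z, u z * g z ^ 2 ≤ B) :
    |∑ z, m z * g z| ≤ √A * √B := by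
  have hA0 : 0 ≤ A := (sum_nonneg fun z _ => div_nonneg (sq_nonneg _) (hu z).le).trans hA
  have hB0 : 0 ≤ B := (sum_nonneg fun z _ => mul_nonneg (hu z).le (sq_nonneg _)).trans hB
  have h1 : (∑ z, m z * g z) ^ 2 ≤ (∑ z, m z ^ 2 / u z) * ∑ z, u z * g z ^ 2 := by
    have := sum_mul_sq_le_sq_mul_sq univ (fun z => m z / √(u z)) (fun z => √(u z) * g z)
    have e1 : ∀ z, m z / √(u z) * (√(u z) * g z) = m z * g z := fun z => by
      have := Real.sqrt_pos.2 (hu z)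
      field_simp
    have e2 : ∀ z, (m z / √(u z)) ^ 2 = m z ^ 2 / u z := fun z => by
      rw [div_pow, Real.sq_sqrt (hu z).le]
    have e3 : ∀ z, (√(u z) * g z) ^ 2 = u z * g z ^ 2 := fun z => by
      rw [mul_pow, Real.sq_sqrt (hu z).le]
    simpa only [e1, e2, e3] using this
  have h2 : (∑ z, m z * g z) ^ 2 ≤ A * B :=
    h1.trans (mul_le_mul hA hB (sum_nonneg fun z _ => mul_nonneg (hu z).le (sq_nonneg _)) hA0)
  rw [← Real.sqrt_mul hA0]
  exact Real.abs_le_sqrt h2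

theorem n1_neg {d N : ℕ} (x : V d N) : n1 (-x) = n1 x := by
  unfold n1
  exact sum_congr rfl fun i _ => by rw [Pi.neg_apply, ZMod.natAbs_valMinAbs_neg]

theorem nrm_neg {d N : ℕ} (r R : ℝ) (w : GG d N) : nrm r R (-w) = nrm r R w := by
  unfold nrm
  rw [Prod.fst_neg, Prod.snd_neg, n1_neg, n1_neg]

/-- `Am 1` is a bijection -/
def amEquiv (d N : ℕ) : GG d N ≃ GG d N where
  toFun := Am 1
  invFun := Ap 1
  left_inv z := by simp [Am, Ap]
  right_inv z := by simp [Am, Ap]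

theorem log_lip {d : ℕ} {s c0 C0 C1 : ℝ} (E : Env d s c0 C0 C1) {μ : E.G → ℝ} (hμ : IsP μ) {k : ℕ}
    (hk : k ≤ E.K) (z : E.G) :
    (Real.log (lev E.q μ (k + 1) z) - Real.log (lev E.q μ (k + 1) 0)) ^ 2 ≤ E.nm k z ^ 2 := by
  have h0 := E.u_pos hμ hk 0
  have h1 := E.u_pos hμ hk z
  have h2 := E.u_lip hμ hk 0 z
  have h3 := E.u_lip hμ hk z (-z)
  rw [zero_add] at h2
  rw [add_neg_cancel] at h3
  have h4 : E.nm k (-z) = E.nm k z := nrm_neg _ _ _
  rw [h4] at h3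
  have h5 := Real.log_le_log h1 h2
  rw [Real.log_mul (Real.exp_pos _).ne' h0.ne', Real.log_exp] at h5
  have h6 := Real.log_le_log h0 h3
  rw [Real.log_mul (Real.exp_pos _).ne' h1.ne', Real.log_exp] at h6
  apply sq_le_sq'
  · linarith
  · linarith

theorem Xk_nonneg {d : ℕ} {s c0 C0 C1 : ℝ} (E : Env d s c0 C0 C1) (μ : E.G → ℝ) {k : ℕ}
    (hk : k ≤ E.K) : 0 ≤ E.Xk μ k :=
  sum_nonneg fun w _ => mul_nonneg (E.q_pos hk w).le (sum_nonneg fun _ _ => sq_nonneg _)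

theorem Yk_nonneg {d : ℕ} {s c0 C0 C1 : ℝ} (E : Env d s c0 C0 C1) (μ : E.G → ℝ) {k : ℕ}
    (hk : k ≤ E.K) : 0 ≤ E.Yk μ k :=
  sum_nonneg fun w _ => mul_nonneg (mul_nonneg (E.q_pos hk w).le (sq_nonneg _))
    (sum_nonneg fun _ _ => sq_nonneg _)

/-- I.2 (b): transport part of the energy inequality, given a second moment bound `Cm` -/
theorem energy_transport (s c0 C0 C1 : ℝ) (d : ℕ) (hs : 0 < s) (hC1 : 0 < C1) : ∃ C : ℝ, 0 < C ∧
    ∀ (K : ℕ) (Cm : ℝ), ∃ CK : ℝ, 0 < CK ∧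
    ∀ (E : Env d s c0 C0 C1), E.K = K → ∀ ν : E.G → ℝ, IsP ν → ∀ k ≤ K,
      (∑ z, lev E.q ν (k + 1) z * E.nm k z ^ 2 ≤ Cm) →
      Ht (lev E.q ν (k + 1)) ≤ Ht (lev E.q (fun y => ν (Ap 1 y)) (k + 1))
        + C / E.R k * ∑ j ∈ range (k + 1), √(E.Yk ν j * E.Xk ν k) + CK * E.ε ^ 2 := by
  obtain ⟨C4, hC4, hx⟩ := x_diff_log s c0 C0 C1 d hs
  refine ⟨(d + 1) * C4, by positivity, fun K Cm => ?_⟩
  obtain ⟨C, hC, her⟩ := Er_bound s c0 C0 C1 d hs hC1 K
  refine ⟨C * √Cm + 1, by positivity, fun E hE ν hν k hk hCm => ?_⟩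
  have hkE : k ≤ E.K := by omega
  set ρ := lev E.q ν (k + 1) with hρ
  set ρt : E.G → ℝ := fun z => lev E.q (fun y => ν (Ap 1 y)) (k + 1) (Am 1 z) with hρt
  have hρpos : ∀ z, 0 < ρ z := fun z => E.u_pos hν hkE z
  have hν' : IsP (fun y => ν (Ap 1 y)) := by
    refine ⟨fun z => hν.nn _, ?_⟩
    rw [← hν.one]
    exact Fintype.sum_equiv (amEquiv d E.N).symm _ _ fun _ => rfl
  have hρtpos : ∀ z, 0 < ρt z := fun z => E.u_pos hν' hkE _
  have hsum : ∑ z, ρ z = ∑ z, ρt z := by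
    rw [hρ, E.u_sum hν (by omega), hρt]
    rw [show (∑ z, lev E.q (fun y => ν (Ap 1 y)) (k + 1) (Am 1 z)) =
      ∑ z, lev E.q (fun y => ν (Ap 1 y)) (k + 1) z from
      Fintype.sum_equiv (amEquiv d E.N) _ _ fun _ => rfl, E.u_sum hν' (by omega)]
  have hHt : Ht (lev E.q (fun y => ν (Ap 1 y)) (k + 1)) = Ht ρt := by
    unfold Ht
    exact (Fintype.sum_equiv (amEquiv d E.N) _ _ fun _ => rfl).symm
  -- convexity
  have hconv : Ht ρ ≤ Ht ρt + ∑ z, (ρ z - ρt z) * Real.log (ρ z) := by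
    unfold Ht
    have h1 : ∑ z, (ρ z * Real.log (ρ z) + (ρt z - ρ z) * (1 + Real.log (ρ z))) ≤
        ∑ z, ρt z * Real.log (ρt z) := sum_le_sum fun z _ => E2' _ _ (hρtpos z) (hρpos z)
    have h2 : ∑ z, (ρ z * Real.log (ρ z) + (ρt z - ρ z) * (1 + Real.log (ρ z))) =
        ∑ z, ρ z * Real.log (ρ z) + (∑ z, ρt z - ∑ z, ρ z) -
          ∑ z, (ρ z - ρt z) * Real.log (ρ z) := by
      rw [← sum_sub_distrib, ← sum_add_distrib, ← sum_sub_distrib]
      exact sum_congr rfl fun z _ => by ring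
    rw [h2, hsum] at h1
    linarith
  -- decomposition
  have hdec : ∀ z, ρ z - ρt z = E.Er ν k z + (1 / 2) * ∑ j ∈ range (k + 1), ∑ i,
      (E.mm ν k j i (z + xs (ee i)) - E.mm ν k j i (z - xs (ee i))) := by
    intro z
    unfold Env.Er
    ring
  have hmain : ∑ z, (ρ z - ρt z) * Real.log (ρ z) =
      ∑ z, E.Er ν k z * (Real.log (ρ z) - Real.log (ρ 0)) +
      (1 / 2) * ∑ j ∈ range (k + 1), ∑ i, ∑ z, E.mm ν k j i z *
        (Real.log (ρ (z - xs (ee i))) - Real.log (ρ (z + xs (ee i)))) := by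
    have h1 : ∀ z, (ρ z - ρt z) * Real.log (ρ z) =
        E.Er ν k z * (Real.log (ρ z) - Real.log (ρ 0)) + E.Er ν k z * Real.log (ρ 0) +
        (1 / 2) * ∑ j ∈ range (k + 1), ∑ i,
          (E.mm ν k j i (z + xs (ee i)) * Real.log (ρ z) -
            E.mm ν k j i (z - xs (ee i)) * Real.log (ρ z)) := by
      intro z
      rw [hdec z, add_mul, mul_assoc, sum_mul]
      congr 1
      · ring
      · congr 1
        refine sum_congr rfl fun j _ => ?_
        rw [sum_mul]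
        exact sum_congr rfl fun i _ => by ring
    rw [sum_congr rfl fun z _ => h1 z, sum_add_distrib, sum_add_distrib, ← sum_mul,
      (her E hE ν hν k hk).2, zero_mul, add_zero, ← mul_sum, sum_comm]
    congr 2
    refine sum_congr rfl fun j _ => ?_
    rw [sum_comm]
    refine sum_congr rfl fun i _ => ?_
    rw [sum_sub_distrib]
    have e1 : ∑ z, E.mm ν k j i (z + xs (ee i)) * Real.log (ρ z) =
        ∑ z, E.mm ν k j i z * Real.log (ρ (z - xs (ee i))) := by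
      rw [← sum_shift (fun z => E.mm ν k j i z * Real.log (ρ (z - xs (ee i)))) (xs (ee i))]
      exact sum_congr rfl fun z _ => by rw [add_sub_cancel_right]
    have e2 : ∑ z, E.mm ν k j i (z - xs (ee i)) * Real.log (ρ z) =
        ∑ z, E.mm ν k j i z * Real.log (ρ (z + xs (ee i))) := by
      rw [← sum_shift_sub (fun z => E.mm ν k j i z * Real.log (ρ (z + xs (ee i)))) (xs (ee i))]
      exact sum_congr rfl fun z _ => by rw [sub_add_cancel]
    rw [e1, e2, ← sum_sub_distrib]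
    exact sum_congr rfl fun z _ => by ring
  -- the error term
  have herr : |∑ z, E.Er ν k z * (Real.log (ρ z) - Real.log (ρ 0))| ≤ C * √Cm * E.ε ^ 2 := by
    have h1 := cs_weight ρ (E.Er ν k) (fun z => Real.log (ρ z) - Real.log (ρ 0)) hρpos
      ((C * E.ε ^ 2) ^ 2) Cm (her E hE ν hν k hk).1 ((sum_le_sum fun z _ =>
        mul_le_mul_of_nonneg_left (log_lip E hν hkE z) (hρpos z).le).trans hCm)
    rw [Real.sqrt_sq (by positivity)] at h1
    calc _ ≤ _ := h1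
      _ = _ := by ring
  -- the main terms
  have hterm : ∀ j ∈ range (k + 1), ∀ i : Fin d, |∑ z, E.mm ν k j i z *
        (Real.log (ρ (z - xs (ee i))) - Real.log (ρ (z + xs (ee i))))| ≤
        C4 / E.R k * √(E.Yk ν j * E.Xk ν k) := by
    intro j hj i
    have hj' : j ≤ k := by
      have := mem_range.1 hj
      omega
    have hR := E.R_pos k
    have h1 := cs_weight ρ (E.mm ν k j i)
      (fun z => Real.log (ρ (z - xs (ee i))) - Real.log (ρ (z + xs (ee i)))) hρpos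
      (E.Yk ν j) ((C4 / E.R k) ^ 2 * E.Xk ν k) (mm_bound E hν hj' hkE i) (by
        refine le_trans (le_of_eq ?_) (hx E ν hν k hkE i)
        exact sum_congr rfl fun z _ => by ring)
    rw [Real.sqrt_mul (sq_nonneg _), Real.sqrt_sq (by positivity)] at h1
    rw [Real.sqrt_mul (Yk_nonneg E ν (by omega))]
    calc _ ≤ _ := h1
      _ = _ := by ring
  have hsum2 : |∑ j ∈ range (k + 1), ∑ i, ∑ z, E.mm ν k j i z *
        (Real.log (ρ (z - xs (ee i))) - Real.log (ρ (z + xs (ee i))))| ≤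
        d * (C4 / E.R k) * ∑ j ∈ range (k + 1), √(E.Yk ν j * E.Xk ν k) := by
    rw [mul_sum]
    refine (abs_sum_le_sum_abs _ _).trans (sum_le_sum fun j hj => ?_)
    refine (abs_sum_le_sum_abs _ _).trans ((sum_le_sum fun i _ => hterm j hj i).trans ?_)
    rw [sum_const, card_univ, Fintype.card_fin, nsmul_eq_mul]
    apply le_of_eq
    ring
  have hS : 0 ≤ ∑ j ∈ range (k + 1), √(E.Yk ν j * E.Xk ν k) := sum_nonneg fun _ _ => Real.sqrt_nonneg _
  have hR := E.R_pos k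
  have h1 := abs_le.1 herr
  have h2 := abs_le.1 hsum2
  have h3 : 0 ≤ C4 / E.R k * ∑ j ∈ range (k + 1), √(E.Yk ν j * E.Xk ν k) := by positivity
  have h4 : (d + 1) * C4 / E.R k * ∑ j ∈ range (k + 1), √(E.Yk ν j * E.Xk ν k) =
      d * (C4 / E.R k) * ∑ j ∈ range (k + 1), √(E.Yk ν j * E.Xk ν k) +
        C4 / E.R k * ∑ j ∈ range (k + 1), √(E.Yk ν j * E.Xk ν k) := by ring
  have h5 : 0 ≤ d * (C4 / E.R k) * ∑ j ∈ range (k + 1), √(E.Yk ν j * E.Xk ν k) := by positivity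
  have h6 : 0 ≤ E.ε ^ 2 := sq_nonneg _
  rw [hmain] at hconv
  rw [hHt, h4]
  linarith [h1.2, h2.2]

end KD.I.C5
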