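import Pool.Agent.Helper37.KD.DefsC
import Pool.Agent.Helper37.KD.St.B2

/-! KD Part I, piece H1 -/

namespace KD.I.H1

open Finset

/-- sum of the squares of the cyclic absolute values -/
def f2 {d N : ℕ} (y : V d N) : ℝ := ∑ i, ((y i).valMinAbs.natAbs : ℝ) ^ 2

theorem f2_nonneg {d N : ℕ} (y : V d N) : 0 ≤ f2 y := sum_nonneg fun _ _ => sq_nonneg _

theorem f2_zero {d N : ℕ} : f2 (0 : V d N) = 0 := by
  unfold f2
  refine sum_eq_zero fun i _ => ?_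
  rw [Pi.zero_apply, ZMod.valMinAbs_zero]
  norm_num

theorem n1_sq_le {d N : ℕ} (y : V d N) : n1 y ^ 2 ≤ d * f2 y := by
  have := sq_sum_le_card_mul_sum_sq (s := (univ : Finset (Fin d)))
    (f := fun i => ((y i).valMinAbs.natAbs : ℝ))
  rw [card_univ, Fintype.card_fin] at this
  exact this

theorem abs_le_of_cast {N : ℕ} [NeZero N] (x : ZMod N) (y : ℤ) (h : (y : ZMod N) = x) :
    (x.valMinAbs.natAbs : ℝ) ^ 2 ≤ (y : ℝ) ^ 2 := by
  have h1 : x.valMinAbs.natAbs ≤ y.natAbs :=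
    ZMod.natAbs_min_of_le_div_two N _ _ (by rw [ZMod.coe_valMinAbs, h]) (ZMod.natAbs_valMinAbs_le x)
  have h2 : (x.valMinAbs.natAbs : ℝ) ^ 2 ≤ (y.natAbs : ℝ) ^ 2 := by
    have : (x.valMinAbs.natAbs : ℝ) ≤ y.natAbs := by exact_mod_cast h1
    exact pow_le_pow_left₀ (Nat.cast_nonneg _) this 2
  refine h2.trans (le_of_eq ?_)
  rw [← Int.cast_natCast, ← Int.cast_pow, Int.natAbs_sq, Int.cast_pow]

theorem par_one {N : ℕ} [NeZero N] (x y : ZMod N) :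
    ((x + y).valMinAbs.natAbs : ℝ) ^ 2 + ((x - y).valMinAbs.natAbs : ℝ) ^ 2 ≤
      2 * (x.valMinAbs.natAbs : ℝ) ^ 2 + 2 * (y.valMinAbs.natAbs : ℝ) ^ 2 := by
  have h1 := abs_le_of_cast (x + y) (x.valMinAbs + y.valMinAbs) (by simp)
  have h2 := abs_le_of_cast (x - y) (x.valMinAbs - y.valMinAbs) (by simp)
  have h3 : ∀ z : ℤ, ((z.natAbs : ℕ) : ℝ) ^ 2 = (z : ℝ) ^ 2 := fun z => by
    rw [← Int.cast_natCast, ← Int.cast_pow, Int.natAbs_sq, Int.cast_pow]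
  rw [h3 x.valMinAbs, h3 y.valMinAbs]
  push_cast at h1 h2
  nlinarith

theorem f2_par {d N : ℕ} [NeZero N] (y l : V d N) : f2 (y + l) + f2 (y - l) ≤ 2 * f2 y + 2 * f2 l := by
  unfold f2
  rw [← sum_add_distrib, mul_sum, mul_sum, ← sum_add_distrib]
  exact sum_le_sum fun i _ => par_one (y i) (l i)

theorem f2_le {d N : ℕ} (l : V d N) (r : ℕ) (h : nsup l < r) : f2 l ≤ d * (r : ℝ) ^ 2 := by
  unfold f2
  have : ∀ i ∈ (univ : Finset (Fin d)), ((l i).valMinAbs.natAbs : ℝ) ^ 2 ≤ (r : ℝ) ^ 2 := by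
    intro i _
    have h1 : (l i).valMinAbs.natAbs ≤ nsup l :=
      le_sup (f := fun i => ((l i).valMinAbs.natAbs)) (mem_univ i)
    have h2 : ((l i).valMinAbs.natAbs : ℝ) ≤ r := by exact_mod_cast (h1.trans h.le)
    exact pow_le_pow_left₀ (Nat.cast_nonneg _) h2 2
  refine (sum_le_card_nsmul _ _ _ this).trans (le_of_eq ?_)
  rw [card_univ, Fintype.card_fin, nsmul_eq_mul]

/-- `Am 1` is a bijection -/
def amEquiv (d N : ℕ) : GG d N ≃ GG d N where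
  toFun := Am 1
  invFun := Ap 1
  left_inv z := by simp [Am, Ap]
  right_inv z := by simp [Am, Ap]

section step
variable {d : ℕ} {s c0 C0 C1 : ℝ} (E : Env d s c0 C0 C1)

/-- shifting a jump to the test function -/
theorem shift_test (b : E.G → ℝ) (l : V d E.N) :
    ∑ z, (b (z + vs l) - b z) * f2 z.2 = ∑ z, b z * (f2 (z.2 - l) - f2 z.2) := by
  have h1 : ∑ z, b (z + vs l) * f2 z.2 = ∑ z, b z * f2 (z.2 - l) := by
    rw [← sum_shift (fun z => b z * f2 (z.2 - l)) (vs l)]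
    refine sum_congr rfl fun z _ => ?_
    have : (z + vs l).2 - l = z.2 := by
      change z.2 + l - l = z.2
      exact add_sub_cancel_right _ _
    rw [this]
  rw [sum_congr rfl fun z _ => sub_mul (b (z + vs l)) (b z) (f2 z.2), sum_sub_distrib, h1,
    ← sum_sub_distrib]
  exact sum_congr rfl fun z _ => by ring

theorem sum_neg_theta (F : E.Θ → ℝ) : ∑ θ, F (E.S.neg θ) = ∑ θ, F θ :=
  Fintype.sum_equiv (⟨E.S.neg, E.S.neg, E.S.neg_neg, E.S.neg_neg⟩ : E.Θ ≃ E.Θ) _ _ fun _ => rfl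

/-- the contribution of one shell -/
theorem shell {lam Lam M0 : ℝ} (hlam : 0 < lam) (hLam : 0 ≤ Lam) {a : ℕ → E.Θ → E.G → ℝ} (ha : E.S.Coef lam Lam M0 a)
    {μ : E.G → ℝ} (hμ : IsP μ) (j : ℕ) (hj : j ≤ E.K + 3) :
    ∑ θ, E.S.wt s j θ * ∑ z, (a j θ (z + E.S.jv j θ) * μ (z + E.S.jv j θ) - a j θ z * μ z) * f2 z.2 ≤
      Lam * C0 * (d * (2 ^ (j + 1)) ^ 2) / tim s j := by
  set T : E.Θ → ℝ := fun θ => ∑ z, (a j θ z * μ z) * (f2 (z.2 - E.S.pi j θ) - f2 z.2) with hT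
  have h1 : ∀ θ, ∑ z, (a j θ (z + E.S.jv j θ) * μ (z + E.S.jv j θ) - a j θ z * μ z) * f2 z.2 = T θ :=
    fun θ => shift_test E (fun z => a j θ z * μ z) (E.S.pi j θ)
  have hwt : ∀ θ, 0 ≤ E.S.wt s j θ := fun θ => div_nonneg (E.S.m_nn θ) (tim_pos s j).le
  have h2 : ∑ θ, E.S.wt s j θ * T (E.S.neg θ) = ∑ θ, E.S.wt s j θ * T θ := by
    rw [← sum_neg_theta E (fun θ => E.S.wt s j θ * T θ)]
    refine sum_congr rfl fun θ _ => ?_
    unfold JSys.wt
    rw [E.S.m_neg]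
  have h3 : ∀ θ, T θ + T (E.S.neg θ) ≤ 2 * (Lam * (d * (2 ^ (j + 1)) ^ 2)) := by
    intro θ
    rw [hT]
    simp only
    rw [← sum_add_distrib]
    have h4 : ∀ z ∈ (univ : Finset E.G), (a j θ z * μ z) * (f2 (z.2 - E.S.pi j θ) - f2 z.2) +
        (a j (E.S.neg θ) z * μ z) * (f2 (z.2 - E.S.pi j (E.S.neg θ)) - f2 z.2) ≤
        μ z * (2 * (Lam * (d * (2 ^ (j + 1)) ^ 2))) := by
      intro z _
      rw [ha.symm, E.S.pi_neg, sub_neg_eq_add]
      have h5 := f2_par z.2 (E.S.pi j θ)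
      have h6 := f2_le (E.S.pi j θ) (2 ^ (j + 1)) (E.S.pi_hi j hj θ)
      push_cast at h6
      have h7 := hμ.nn z
      have h8 := ha.hi j θ z
      have h9 := (hlam.le.trans (ha.lo j θ z))
      have h10 := f2_nonneg (E.S.pi j θ)
      calc _ = (a j θ z * μ z) * (f2 (z.2 + E.S.pi j θ) + f2 (z.2 - E.S.pi j θ) - 2 * f2 z.2) := by
            ring
        _ ≤ (a j θ z * μ z) * (2 * f2 (E.S.pi j θ)) :=
            mul_le_mul_of_nonneg_left (by linarith) (mul_nonneg h9 h7)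
        _ ≤ (Lam * μ z) * (2 * f2 (E.S.pi j θ)) :=
            mul_le_mul_of_nonneg_right (mul_le_mul_of_nonneg_right h8 h7) (by positivity)
        _ ≤ (Lam * μ z) * (2 * (d * (2 ^ (j + 1)) ^ 2)) :=
            mul_le_mul_of_nonneg_left (by linarith) (mul_nonneg hLam h7)
        _ = _ := by ring
    refine (sum_le_sum h4).trans (le_of_eq ?_)
    rw [← sum_mul, hμ.one, one_mul]
  have h4 : 2 * ∑ θ, E.S.wt s j θ * T θ ≤
      2 * (Lam * C0 * (d * (2 ^ (j + 1)) ^ 2) / tim s j) := by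
    calc 2 * ∑ θ, E.S.wt s j θ * T θ = ∑ θ, E.S.wt s j θ * (T θ + T (E.S.neg θ)) := by
          rw [sum_congr rfl fun θ _ => mul_add (E.S.wt s j θ) (T θ) (T (E.S.neg θ)),
            sum_add_distrib, h2, two_mul]
      _ ≤ ∑ θ, E.S.wt s j θ * (2 * (Lam * (d * (2 ^ (j + 1)) ^ 2))) :=
          sum_le_sum fun θ _ => mul_le_mul_of_nonneg_left (h3 θ) (hwt θ)
      _ = (∑ θ, E.S.m θ) * (2 * (Lam * (d * (2 ^ (j + 1)) ^ 2)) / tim s j) := by
          rw [← sum_mul]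
          unfold JSys.wt
          rw [← sum_div]
          ring
      _ ≤ C0 * (2 * (Lam * (d * (2 ^ (j + 1)) ^ 2)) / tim s j) :=
          mul_le_mul_of_nonneg_right E.S.mass (by have := tim_pos s j; positivity)
      _ = _ := by ring
  rw [sum_congr rfl fun θ _ => by rw [h1 θ]]
  linarith

theorem moment_step {lam Lam M0 : ℝ} (hlam : 0 < lam) (hLam : 0 ≤ Lam) {a : ℕ → E.Θ → E.G → ℝ}
    (ha : E.S.Coef lam Lam M0 a) {μ : E.G → ℝ} (hμ : IsP μ) :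
    ∑ z, E.step a μ z * f2 z.2 ≤ ∑ z, μ z * f2 z.2 +
      E.ε * ∑ j ∈ range (E.K + 4), Lam * C0 * (d * (2 ^ (j + 1)) ^ 2) / tim s j := by
  have h1 : ∑ z, E.step a μ z * f2 z.2 = ∑ z, E.Jop a μ z * f2 z.2 :=
    Fintype.sum_equiv (amEquiv d E.N) _ _ fun _ => rfl
  have h2 : ∑ z, E.Jop a μ z * f2 z.2 = ∑ z, μ z * f2 z.2 + E.ε * ∑ j ∈ range (E.K + 4),
      ∑ θ, E.S.wt s j θ * ∑ z, (a j θ (z + E.S.jv j θ) * μ (z + E.S.jv j θ) - a j θ z * μ z) *
        f2 z.2 := by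
    have h3 : ∀ z, E.Jop a μ z * f2 z.2 = μ z * f2 z.2 + E.ε * ∑ j ∈ range (E.K + 4),
      ∑ θ, E.S.wt s j θ * ((a j θ (z + E.S.jv j θ) * μ (z + E.S.jv j θ) - a j θ z * μ z) *
        f2 z.2) := by
      intro z
      unfold Env.Jop JSys.Jop
      rw [add_mul, mul_assoc, sum_mul]
      congr 2
      refine sum_congr rfl fun j _ => ?_
      rw [sum_mul]
      exact sum_congr rfl fun θ _ => by ring
    rw [sum_congr rfl fun z _ => h3 z, sum_add_distrib, ← mul_sum, sum_comm]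
    congr 2
    refine sum_congr rfl fun j _ => ?_
    rw [sum_comm]
    exact sum_congr rfl fun θ _ => by rw [mul_sum]
  rw [h1, h2]
  have h3 : ∑ j ∈ range (E.K + 4), ∑ θ, E.S.wt s j θ *
      ∑ z, (a j θ (z + E.S.jv j θ) * μ (z + E.S.jv j θ) - a j θ z * μ z) * f2 z.2 ≤
      ∑ j ∈ range (E.K + 4), Lam * C0 * (d * (2 ^ (j + 1)) ^ 2) / tim s j :=
    sum_le_sum fun j hj => shell E hlam hLam ha hμ j (by have := mem_range.1 hj; omega)
  have := mul_le_mul_of_nonneg_left h3 E.hε.le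
  linarith

end step

/-- the geometric sum -/
theorem geom (s : ℝ) (hs1 : s < 1) : ∃ C : ℝ, 0 < C ∧ ∀ K : ℕ,
    ∑ j ∈ range (K + 4), (2 ^ (j + 1) : ℝ) ^ 2 / tim s j ≤ C * ((2 ^ K) ^ 2 / tim s K) := by
  set x : ℝ := 4 / (2 : ℝ) ^ (2 * s) with hx
  have hp : (0 : ℝ) < (2 : ℝ) ^ (2 * s) := Real.rpow_pos_of_pos two_pos _
  have hx1 : 1 < x := by
    rw [hx, lt_div_iff₀ hp, one_mul]
    calc (2 : ℝ) ^ (2 * s) < (2 : ℝ) ^ (2 : ℝ) :=
          Real.rpow_lt_rpow_of_exponent_lt one_lt_two (by linarith)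
      _ = 4 := by
          rw [show (2 : ℝ) = ((2 : ℕ) : ℝ) by norm_num, Real.rpow_natCast]
          norm_num
  have hxj : ∀ j : ℕ, (2 ^ j : ℝ) ^ 2 / tim s j = x ^ j := by
    intro j
    have : tim s j = ((2 : ℝ) ^ (2 * s)) ^ j := by
      unfold tim
      rw [Real.rpow_mul two_pos.le, Real.rpow_natCast]
    rw [this, hx, div_pow, ← pow_mul, mul_comm j 2, pow_mul]
    norm_num
  refine ⟨4 * (x ^ 4 / (x - 1)), ?_, fun K => ?_⟩
  · have : 0 < x - 1 := by linarith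
    positivity
  · have h1 : ∀ j ∈ range (K + 4), (2 ^ (j + 1) : ℝ) ^ 2 / tim s j = 4 * x ^ j := by
      intro j _
      rw [← hxj j, pow_succ]
      ring
    rw [sum_congr rfl h1, ← mul_sum, geom_sum_eq hx1.ne', hxj K]
    have : 0 < x - 1 := by linarith
    rw [mul_assoc, div_mul_eq_mul_div, ← pow_add, add_comm 4 K]
    have h2 : (x ^ (K + 4) - 1) / (x - 1) ≤ x ^ (K + 4) / (x - 1) :=
      div_le_div_of_nonneg_right (by linarith) this.le
    linarith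

/-- second moment in `v` of the chain (cyclic norm) -/
theorem chain_v_moment (s lam Lam c0 C0 C1 : ℝ) (d : ℕ) (hd : 1 ≤ d) (hs : 0 < s) (hs1 : s < 1)
    (hlam : 0 < lam) (hLam : lam ≤ Lam) (hC0 : 0 < C0) : ∃ C : ℝ, 0 < C ∧
    ∀ K : ℕ, ∃ ε0 : ℝ, 0 < ε0 ∧
    ∀ (E : Env d s c0 C0 C1), E.K = K → E.ε ≤ ε0 →
    ∀ (M0 : ℝ) (a : ℕ → ℕ → E.Θ → E.G → ℝ), (∀ n, E.S.Coef lam Lam M0 (a n)) →
    ∀ n : ℕ, (n : ℝ) * E.ε ≤ 2 * tim s K →
      ∑ z, E.chain a n z * n1 z.2 ^ 2 ≤ C * (2 ^ K) ^ 2 := by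
  obtain ⟨Cg, hCg, hg⟩ := geom s hs1
  have hd' : (0 : ℝ) < d := by exact_mod_cast hd
  have hLam0 : 0 < Lam := hlam.trans_le hLam
  refine ⟨d * (2 * (Lam * C0 * d * Cg)), by positivity, fun K => ?_⟩
  obtain ⟨ε0, hε0, hP⟩ := chain_isP s lam Lam c0 C0 C1 d hs hlam hLam hC0 K
  refine ⟨ε0, hε0, fun E hE hεE M0 a ha n hn => ?_⟩
  have hind : ∀ n : ℕ, ∑ z, E.chain a n z * f2 z.2 ≤
      n * (E.ε * (Lam * C0 * d * (Cg * ((2 ^ K) ^ 2 / tim s K)))) := by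
    intro n
    induction n with
    | zero =>
      have : ∀ z ∈ (univ : Finset E.G), E.chain a 0 z * f2 z.2 = 0 := by
        intro z _
        change (Pi.single (0 : E.G) (1 : ℝ) : E.G → ℝ) z * f2 z.2 = 0
        by_cases hz : z = 0
        · rw [hz]
          change _ * f2 (0 : V d E.N) = 0
          rw [f2_zero, mul_zero]
        · rw [Pi.single_eq_of_ne hz, zero_mul]
      rw [sum_eq_zero this]
      simp
    | succ n ih =>
      have h1 := moment_step E hlam hLam0.le (ha n) (hP E hE hεE M0 a ha n)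
      have h2 : ∑ j ∈ range (E.K + 4), Lam * C0 * (d * (2 ^ (j + 1)) ^ 2) / tim s j ≤
          Lam * C0 * d * (Cg * ((2 ^ K) ^ 2 / tim s K)) := by
        have h3 : ∀ j ∈ range (E.K + 4), Lam * C0 * (d * (2 ^ (j + 1)) ^ 2) / tim s j =
            Lam * C0 * d * ((2 ^ (j + 1)) ^ 2 / tim s j) := fun j _ => by ring
        rw [sum_congr rfl h3, ← mul_sum, hE]
        exact mul_le_mul_of_nonneg_left (hg K) (by positivity)
      have h3 := mul_le_mul_of_nonneg_left h2 E.hε.le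
      have h4 : E.chain a (n + 1) = E.step (a n) (E.chain a n) := rfl
      rw [h4]
      push_cast
      linarith
  have h1 : ∑ z, E.chain a n z * n1 z.2 ^ 2 ≤ d * ∑ z, E.chain a n z * f2 z.2 := by
    rw [mul_sum]
    refine sum_le_sum fun z _ => ?_
    have := mul_le_mul_of_nonneg_left (n1_sq_le z.2) ((hP E hE hεE M0 a ha n).nn z)
    linarith
  have h2 : ∑ z, E.chain a n z * f2 z.2 ≤ 2 * (Lam * C0 * d * Cg) * (2 ^ K) ^ 2 := by
    refine (hind n).trans ?_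
    have hT := tim_pos s K
    calc _ = ((n : ℝ) * E.ε) * (Lam * C0 * d * (Cg * ((2 ^ K) ^ 2 / tim s K))) := by ring
      _ ≤ (2 * tim s K) * (Lam * C0 * d * (Cg * ((2 ^ K) ^ 2 / tim s K))) :=
          mul_le_mul_of_nonneg_right hn (by positivity)
      _ = _ := by field_simp
  have h3 := mul_le_mul_of_nonneg_left h2 hd'.le
  linarith

end KD.I.H1
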