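import Pool.Agent.Helper37.KD.DefsC
import Pool.Agent.Helper37.KD.St.B2
import Pool.Agent.Helper37.KD.St.H1

/-! KD Part I, piece H2 -/

namespace KD.I.H2

open Finset

theorem minkowski {ι : Type*} (t : Finset ι) (p f g : ι → ℝ) (hp : ∀ i, 0 ≤ p i) :
    √(∑ i ∈ t, p i * (f i + g i) ^ 2) ≤ √(∑ i ∈ t, p i * f i ^ 2) + √(∑ i ∈ t, p i * g i ^ 2) := by
  set F := ∑ i ∈ t, p i * f i ^ 2 with hF
  set G := ∑ i ∈ t, p i * g i ^ 2 with hG
  have hF0 : 0 ≤ F := sum_nonneg fun i _ => mul_nonneg (hp i) (sq_nonneg _)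
  have hG0 : 0 ≤ G := sum_nonneg fun i _ => mul_nonneg (hp i) (sq_nonneg _)
  have h1 : (∑ i ∈ t, p i * (f i * g i)) ^ 2 ≤ F * G := by
    have := sum_mul_sq_le_sq_mul_sq t (fun i => √(p i) * f i) (fun i => √(p i) * g i)
    have e1 : ∀ i, √(p i) * f i * (√(p i) * g i) = p i * (f i * g i) := fun i => by
      have := Real.mul_self_sqrt (hp i)
      calc _ = (√(p i) * √(p i)) * (f i * g i) := by ring
        _ = _ := by rw [this]
    have e2 : ∀ (h : ι → ℝ) (i : ι), (√(p i) * h i) ^ 2 = p i * h i ^ 2 := fun h i => by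
      rw [mul_pow, Real.sq_sqrt (hp i)]
    simpa only [e1, e2] using this
  have h2 : ∑ i ∈ t, p i * (f i * g i) ≤ √F * √G := by
    rw [← Real.sqrt_mul hF0]
    exact Real.le_sqrt_of_sq_le h1
  rw [Real.sqrt_le_left (by positivity)]
  have h3 : ∑ i ∈ t, p i * (f i + g i) ^ 2 = F + G + 2 * ∑ i ∈ t, p i * (f i * g i) := by
    rw [hF, hG, mul_sum, ← sum_add_distrib, ← sum_add_distrib]
    exact sum_congr rfl fun i _ => by ring
  rw [h3, add_sq, Real.sq_sqrt hF0, Real.sq_sqrt hG0]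
  linarith

theorem n1_nonneg {d N : ℕ} (x : V d N) : 0 ≤ n1 x := sum_nonneg fun _ _ => Nat.cast_nonneg _

theorem n1_add {d N : ℕ} [NeZero N] (x y : V d N) : n1 (x + y) ≤ n1 x + n1 y := by
  unfold n1
  rw [← sum_add_distrib]
  refine sum_le_sum fun i _ => ?_
  have h1 := ZMod.natAbs_valMinAbs_add_le (x i) (y i)
  have h2 := Int.natAbs_add_le (x i).valMinAbs (y i).valMinAbs
  exact_mod_cast h1.trans h2

/-- `Am 1` is a bijection -/
def amEquiv (d N : ℕ) : GG d N ≃ GG d N where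
  toFun := Am 1
  invFun := Ap 1
  left_inv z := by simp [Am, Ap]
  right_inv z := by simp [Am, Ap]

section step
variable {d : ℕ} {s c0 C0 C1 : ℝ} (E : Env d s c0 C0 C1)

/-- jumps do not change functions of `x` -/
theorem jump_x (a : ℕ → E.Θ → E.G → ℝ) (μ : E.G → ℝ) (F : V d E.N → ℝ) :
    ∑ z, E.Jop a μ z * F z.1 = ∑ z, μ z * F z.1 := by
  have h3 : ∀ z, E.Jop a μ z * F z.1 = μ z * F z.1 + E.ε * ∑ j ∈ range (E.K + 4),
      ∑ θ, E.S.wt s j θ * ((a j θ (z + E.S.jv j θ) * μ (z + E.S.jv j θ)) * F z.1 -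
        (a j θ z * μ z) * F z.1) := by
    intro z
    unfold Env.Jop JSys.Jop
    rw [add_mul, mul_assoc, sum_mul]
    congr 2
    refine sum_congr rfl fun j _ => ?_
    rw [sum_mul]
    exact sum_congr rfl fun θ _ => by ring
  rw [sum_congr rfl fun z _ => h3 z, sum_add_distrib, ← mul_sum, sum_comm]
  have h4 : ∑ j ∈ range (E.K + 4), ∑ z, ∑ θ, E.S.wt s j θ *
      ((a j θ (z + E.S.jv j θ) * μ (z + E.S.jv j θ)) * F z.1 - (a j θ z * μ z) * F z.1) = 0 := by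
    refine sum_eq_zero fun j _ => ?_
    rw [sum_comm]
    refine sum_eq_zero fun θ _ => ?_
    rw [← mul_sum, sum_sub_distrib]
    have h5 : ∑ z, (a j θ (z + E.S.jv j θ) * μ (z + E.S.jv j θ)) * F z.1 =
        ∑ z, (a j θ z * μ z) * F z.1 := by
      rw [← sum_shift (fun z => (a j θ z * μ z) * F z.1) (E.S.jv j θ)]
      refine sum_congr rfl fun z _ => ?_
      have : (z + E.S.jv j θ).1 = z.1 := by
        change z.1 + 0 = z.1
        exact add_zero _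
      rw [this]
    rw [h5, sub_self, mul_zero]
  rw [h4, mul_zero, add_zero]

theorem step_v (a : ℕ → E.Θ → E.G → ℝ) (μ : E.G → ℝ) :
    ∑ z, E.Jop a μ z * n1 z.2 ^ 2 = ∑ z, E.step a μ z * n1 z.2 ^ 2 :=
  (Fintype.sum_equiv (amEquiv d E.N) _ _ fun _ => rfl).symm

theorem step_x (a : ℕ → E.Θ → E.G → ℝ) {μ : E.G → ℝ} (hJ : IsP (E.Jop a μ)) :
    √(∑ z, E.step a μ z * n1 z.1 ^ 2) ≤ √(∑ z, μ z * n1 z.1 ^ 2) +
      √(∑ z, E.step a μ z * n1 z.2 ^ 2) := by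
  have h1 : ∑ z, E.step a μ z * n1 z.1 ^ 2 = ∑ z, E.Jop a μ z * n1 (z.1 + z.2) ^ 2 := by
    refine Fintype.sum_equiv (amEquiv d E.N) _ _ fun z => ?_
    have : (amEquiv d E.N z).1 + (amEquiv d E.N z).2 = z.1 := by
      change z.1 - 1 • z.2 + z.2 = z.1
      rw [one_smul, sub_add_cancel]
    rw [this]
    rfl
  have h2 : ∑ z, E.Jop a μ z * n1 (z.1 + z.2) ^ 2 ≤ ∑ z, E.Jop a μ z * (n1 z.1 + n1 z.2) ^ 2 :=
    sum_le_sum fun z _ => mul_le_mul_of_nonneg_left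
      (pow_le_pow_left₀ (n1_nonneg _) (n1_add _ _) 2) (hJ.nn z)
  rw [h1]
  refine (Real.sqrt_le_sqrt h2).trans ((minkowski univ _ _ _ hJ.nn).trans (le_of_eq ?_))
  rw [jump_x E a μ (fun x => n1 x ^ 2), step_v]

end step

/-- second moment in `x` of the chain -/
theorem chain_x_moment (s lam Lam c0 C0 C1 : ℝ) (d : ℕ) (hd : 1 ≤ d) (hs : 0 < s) (hs1 : s < 1)
    (hlam : 0 < lam) (hLam : lam ≤ Lam) (hC0 : 0 < C0) : ∃ C : ℝ, 0 < C ∧
    ∀ K : ℕ, ∃ ε0 : ℝ, 0 < ε0 ∧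
    ∀ (E : Env d s c0 C0 C1), E.K = K → E.ε ≤ ε0 →
    ∀ (M0 : ℝ) (a : ℕ → ℕ → E.Θ → E.G → ℝ), (∀ n, E.S.Coef lam Lam M0 (a n)) →
    ∀ n : ℕ, (n : ℝ) * E.ε ≤ tim s K →
      ∑ z, E.chain a n z * n1 z.1 ^ 2 ≤ C * E.R K ^ 2 := by
  obtain ⟨C, hC, hv⟩ := chain_v_moment s lam Lam c0 C0 C1 d hd hs hs1 hlam hLam hC0
  refine ⟨C, hC, fun K => ?_⟩
  obtain ⟨ε1, hε1, hv1⟩ := hv K
  obtain ⟨ε2, hε2, hP⟩ := chain_isP s lam Lam c0 C0 C1 d hs hlam hLam hC0 K
  obtain ⟨ε3, hε3, hJ⟩ := step_isP s Lam c0 C0 C1 d hs (hlam.trans_le hLam) hC0 K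
  refine ⟨min ε1 (min ε2 ε3), lt_min hε1 (lt_min hε2 hε3), fun E hE hεE M0 a ha n hn => ?_⟩
  have hT := tim_pos s K
  have he1 := hεE.trans (min_le_left _ _)
  have he2 := (hεE.trans (min_le_right _ _)).trans (min_le_left _ _)
  have he3 := (hεE.trans (min_le_right _ _)).trans (min_le_right _ _)
  have hind : ∀ m : ℕ, m ≤ n → √(∑ z, E.chain a m z * n1 z.1 ^ 2) ≤ m * (√C * 2 ^ K) := by
    intro m
    induction m with
    | zero =>
      intro _
      have : ∀ z ∈ (univ : Finset E.G), E.chain a 0 z * n1 z.1 ^ 2 = 0 := by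
        intro z _
        change (Pi.single (0 : E.G) (1 : ℝ) : E.G → ℝ) z * n1 z.1 ^ 2 = 0
        by_cases hz : z = 0
        · rw [hz]
          have : n1 (0 : V d E.N) = 0 := by
            unfold n1
            refine sum_eq_zero fun i _ => ?_
            rw [Pi.zero_apply, ZMod.valMinAbs_zero]
            norm_num
          change _ * n1 (0 : V d E.N) ^ 2 = 0
          rw [this]
          ring
        · rw [Pi.single_eq_of_ne hz, zero_mul]
      rw [sum_eq_zero this]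
      simp
    | succ m ih =>
      intro hm
      have h1 := step_x E (a m) (hJ E hE he3 lam M0 (a m) hlam (ha m) _ (hP E hE he2 M0 a ha m)).1
      have h2 : ∑ z, E.step (a m) (E.chain a m) z * n1 z.2 ^ 2 ≤ C * (2 ^ K) ^ 2 := by
        apply hv1 E hE he1 M0 a ha (m + 1)
        have h3 : ((m + 1 : ℕ) : ℝ) ≤ n := by exact_mod_cast hm
        have h4 := mul_le_mul_of_nonneg_right h3 E.hε.le
        linarith
      have h3 : √(∑ z, E.step (a m) (E.chain a m) z * n1 z.2 ^ 2) ≤ √C * 2 ^ K := by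
        refine (Real.sqrt_le_sqrt h2).trans (le_of_eq ?_)
        rw [Real.sqrt_mul hC.le, Real.sqrt_sq (by positivity)]
      have h4 := ih (by omega)
      have h5 : E.chain a (m + 1) = E.step (a m) (E.chain a m) := rfl
      rw [h5]
      push_cast
      linarith
  have h1 := hind n le_rfl
  have hM := E.hM
  have hε := E.hε
  have h2 : (n : ℝ) * (√C * 2 ^ K) ≤ √C * E.R K := by
    have h3 : (n : ℝ) ≤ tim s K / E.ε := by
      rw [le_div_iff₀ hε]
      exact hn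
    have h4 : (n : ℝ) * 2 ^ K ≤ E.R K := by
      unfold Env.R Rad
      calc (n : ℝ) * 2 ^ K ≤ tim s K / E.ε * 2 ^ K := mul_le_mul_of_nonneg_right h3 (by positivity)
        _ = 1 / E.ε * 2 ^ K * tim s K := by ring
        _ ≤ E.M / E.ε * 2 ^ K * tim s K := by gcongr
    calc (n : ℝ) * (√C * 2 ^ K) = √C * ((n : ℝ) * 2 ^ K) := by ring
      _ ≤ _ := mul_le_mul_of_nonneg_left h4 (Real.sqrt_nonneg _)
  have h3 := h1.trans h2
  rw [Real.sqrt_le_left (mul_nonneg (Real.sqrt_nonneg _) (E.R_pos K).le), mul_pow,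
    Real.sq_sqrt hC.le] at h3
  exact h3

end KD.I.H2
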