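import Pool.Agent.Helper37.KD.DefsC
import Pool.Agent.Helper37.KD.St.B2
import Pool.Agent.Helper37.KD.St.B3
import Pool.Agent.Helper37.KD.St.B4
import Pool.Agent.Helper37.KD.St.C5
import Pool.Agent.Helper37.KD.St.D4
import Pool.Agent.Helper37.KD.St.H3

/-! KD Part I, piece S2 -/

namespace KD.I.S2

open Finset

theorem n1_nonneg {d N : ℕ} (x : V d N) : 0 ≤ n1 x := sum_nonneg fun _ _ => Nat.cast_nonneg _

section env
variable {d : ℕ} {s c0 C0 C1 : ℝ} (E : Env d s c0 C0 C1)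

theorem nm_nonneg (k : ℕ) (w : E.G) : 0 ≤ E.nm k w := by
  have := E.R_pos k
  exact add_nonneg (div_nonneg (n1_nonneg _) this.le) (div_nonneg (n1_nonneg _) (by positivity))

/-- comparison of the norms -/
theorem nm_le (hs : 0 < s) (k : ℕ) (w : E.G) :
    E.nm k w ≤ (2 ^ E.K * tim s E.K) * E.nm E.K w := by
  have hM : 0 < E.M := one_pos.trans_le E.hM
  have hε := E.hε
  have hT := one_le_tim hs E.K
  have hTk := one_le_tim hs k
  have h2 : (1 : ℝ) ≤ 2 ^ k := one_le_pow₀ one_le_two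
  have h2K : (1 : ℝ) ≤ 2 ^ E.K := one_le_pow₀ one_le_two
  have hR := E.R_pos k
  have hRK := E.R_pos E.K
  have e1 : n1 w.1 / E.R k ≤ (2 ^ E.K * tim s E.K) * (n1 w.1 / E.R E.K) := by
    have h3 : (2 ^ E.K * tim s E.K) * (n1 w.1 / E.R E.K) = n1 w.1 / (E.M / E.ε) := by
      unfold Env.R Rad
      field_simp
    rw [h3]
    apply div_le_div_of_nonneg_left (n1_nonneg _) (by positivity)
    unfold Env.R Rad
    have h4 : (1 : ℝ) ≤ 2 ^ k * tim s k := one_le_mul_of_one_le_of_one_le h2 hTk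
    calc E.M / E.ε = E.M / E.ε * 1 := (mul_one _).symm
      _ ≤ E.M / E.ε * (2 ^ k * tim s k) := mul_le_mul_of_nonneg_left h4 (by positivity)
      _ = _ := by ring
  have e2 : n1 w.2 / 2 ^ k ≤ (2 ^ E.K * tim s E.K) * (n1 w.2 / 2 ^ E.K) := by
    have h3 : (2 ^ E.K * tim s E.K) * (n1 w.2 / 2 ^ E.K) = n1 w.2 * tim s E.K := by
      field_simp
    rw [h3]
    calc n1 w.2 / 2 ^ k ≤ n1 w.2 := div_le_self (n1_nonneg _) h2
      _ = n1 w.2 * 1 := (mul_one _).symm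
      _ ≤ _ := mul_le_mul_of_nonneg_left hT (n1_nonneg _)
  unfold Env.nm nrm
  calc _ ≤ _ := add_le_add e1 e2
    _ = _ := by rw [mul_add]

end env

theorem sum_range_succ_le {f : ℕ → ℝ} (hf : ∀ n, 0 ≤ f n) (T : ℕ) :
    ∑ n ∈ range T, f n ≤ ∑ n ∈ range (T + 1), f n := by
  rw [sum_range_succ]
  linarith [hf T]

theorem sum_shift_le {f : ℕ → ℝ} (hf : ∀ n, 0 ≤ f n) (T : ℕ) :
    ∑ n ∈ range T, f (n + 1) ≤ ∑ n ∈ range (T + 1), f n := by
  rw [sum_range_succ']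
  linarith [hf 0]

/-- Cauchy-Schwarz for square roots -/
theorem sum_sqrt_le (t : Finset ℕ) (y x : ℕ → ℝ) (hy : ∀ n, 0 ≤ y n) (hx : ∀ n, 0 ≤ x n) :
    ∑ n ∈ t, √(y n * x n) ≤ √((∑ n ∈ t, y n) * ∑ n ∈ t, x n) := by
  apply Real.le_sqrt_of_sq_le
  have := sum_mul_sq_le_sq_mul_sq t (fun n => √(y n)) (fun n => √(x n))
  simp only [Real.sq_sqrt (hy _), Real.sq_sqrt (hx _)] at this
  simpa only [Real.sqrt_mul (hy _)] using this

/-- I.2 summed in time: averages over `range (T+1)` -/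
theorem energy_average (s lam Lam c0 C0 C1 : ℝ) (d : ℕ) (hd : 1 ≤ d) (hs : 0 < s) (hs1 : s < 1)
    (hlam : 0 < lam) (hLam : lam ≤ Lam) (hC0 : 0 < C0) (hC1 : 0 < C1) :
    ∃ C : ℝ, 0 < C ∧ ∀ K : ℕ, ∃ CK ε0 : ℝ, 0 < CK ∧ 0 < ε0 ∧
    ∀ (E : Env d s c0 C0 C1), E.K = K → E.ε ≤ ε0 →
    ∀ (M0 : ℝ) (a : ℕ → ℕ → E.Θ → E.G → ℝ), (∀ n, E.S.Coef lam Lam M0 (a n)) →
    ∀ T : ℕ, (T : ℝ) * E.ε ≤ tim s K → ∀ k ≤ K,
      lam / 4 * (E.ε * ∑ n ∈ range (T + 1), E.Ik (E.chain a n) k) ≤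
        (Ht (lev E.q (E.chain a 0) (k + 1)) - Ht (lev E.q (E.chain a T) (k + 1)))
        + (E.ε * ∑ n ∈ range (T + 1), E.Ek (a n) (E.chain a n) k) / (4 * lam)
        + C / E.M / tim s k * ∑ j ∈ range (k + 1), 2 ^ j / 2 ^ k *
            √((E.ε * ∑ n ∈ range (T + 1), E.Yk (E.chain a n) j / (2 ^ j) ^ 2)
              * (E.ε * ∑ n ∈ range (T + 1), E.Xk (E.chain a n) k)) + CK * E.ε := by
  obtain ⟨C, hC, htr⟩ := energy_transport s c0 C0 C1 d hs hC1
  obtain ⟨Cm, hCm, hmom⟩ := level_moment s lam Lam c0 C0 C1 d hd hs hs1 hlam hLam hC0 hC1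
  refine ⟨C, hC, fun K => ?_⟩
  obtain ⟨ε1, hε1, hm⟩ := hmom K
  obtain ⟨CT, hCT, htr⟩ := htr K ((2 ^ K * tim s K) ^ 2 * Cm)
  obtain ⟨CJ, ε2, hCJ, hε2, hj⟩ := energy_jump_env s lam Lam c0 C0 C1 d hs hlam hLam hC0 K
  obtain ⟨CI, hCI, hI⟩ := Ik_le s c0 C0 C1 d hs hC0 K
  obtain ⟨ε3, hε3, hP⟩ := chain_isP s lam Lam c0 C0 C1 d hs hlam hLam hC0 K
  refine ⟨(CT + CJ) * tim s K + lam / 4 * CI, min ε1 (min ε2 ε3), by
    have := tim_pos s K
    positivity, lt_min hε1 (lt_min hε2 hε3), fun E hE hεE M0 a ha T hT k hk => ?_⟩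
  have he1 := hεE.trans (min_le_left _ _)
  have he2 := (hεE.trans (min_le_right _ _)).trans (min_le_left _ _)
  have he3 := (hεE.trans (min_le_right _ _)).trans (min_le_right _ _)
  have hkE : k ≤ E.K := by omega
  have hPn := hP E hE he3 M0 a ha
  have hM : 0 < E.M := one_pos.trans_le E.hM
  have hε := E.hε
  have hTk := tim_pos s k
  set H : ℕ → ℝ := fun n => Ht (lev E.q (E.chain a n) (k + 1)) with hH
  set I : ℕ → ℝ := fun n => E.Ik (E.chain a n) k with hIdef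
  set F : ℕ → ℝ := fun n => E.Ek (a n) (E.chain a n) k with hF
  set S : ℕ → ℝ := fun n => ∑ j ∈ range (k + 1), √(E.Yk (E.chain a n) j * E.Xk (E.chain a n) k) with hS
  have hI0 : ∀ n, 0 ≤ I n := fun n => Ik_nonneg E (hPn n) hkE
  have hF0 : ∀ n, 0 ≤ F n := fun n => Ek_nonneg E (a n) (hPn n) hkE
  have hS0 : ∀ n, 0 ≤ S n := fun n => sum_nonneg fun _ _ => Real.sqrt_nonneg _
  -- one step
  have hstep : ∀ n, n < T → H (n + 1) ≤ H n - E.ε * (lam / 4) * I n + E.ε / (4 * lam) * F n +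
      C / E.R k * S (n + 1) + (CT + CJ) * E.ε ^ 2 := by
    intro n hn
    have h1 := hj E hE he2 M0 (a n) (ha n) _ (hPn n) k hk
    have h2 : (fun y => E.chain a (n + 1) (Ap 1 y)) = E.Jop (a n) (E.chain a n) := by
      funext y
      change E.Jop (a n) (E.chain a n) (Am 1 (Ap 1 y)) = _
      congr 1
      simp [Am, Ap]
    have h3 := htr E hE (E.chain a (n + 1)) (hPn (n + 1)) k hk (by
      have h4 : ∀ z ∈ (univ : Finset E.G), lev E.q (E.chain a (n + 1)) (k + 1) z * E.nm k z ^ 2 ≤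
          (2 ^ K * tim s K) ^ 2 * (lev E.q (E.chain a (n + 1)) (k + 1) z * E.nm K z ^ 2) := by
        intro z _
        have h5 := E.u_nonneg (hPn (n + 1)) (k := k + 1) (by omega) z
        have h6 := nm_le E hs k z
        rw [hE] at h6
        have h7 := pow_le_pow_left₀ (nm_nonneg E k z) h6 2
        calc _ ≤ lev E.q (E.chain a (n + 1)) (k + 1) z * (2 ^ K * tim s K * E.nm K z) ^ 2 :=
              mul_le_mul_of_nonneg_left h7 h5
          _ = _ := by ring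
      refine (sum_le_sum h4).trans ?_
      rw [← mul_sum]
      refine mul_le_mul_of_nonneg_left ?_ (sq_nonneg _)
      apply hm E hE he1 M0 a ha (n + 1) _ (k + 1) (by omega)
      have h5 : ((n + 1 : ℕ) : ℝ) ≤ T := by exact_mod_cast hn
      have h6 := mul_le_mul_of_nonneg_right h5 E.hε.le
      linarith)
    rw [h2] at h3
    have e : (CT + CJ) * E.ε ^ 2 = CT * E.ε ^ 2 + CJ * E.ε ^ 2 := by ring
    rw [e]
    linarith
  -- summation
  have hsum : ∀ m, m ≤ T → E.ε * (lam / 4) * ∑ n ∈ range m, I n ≤ H 0 - H m +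
      E.ε / (4 * lam) * ∑ n ∈ range m, F n + C / E.R k * ∑ n ∈ range m, S (n + 1) +
      m * ((CT + CJ) * E.ε ^ 2) := by
    intro m
    induction m with
    | zero => intro _; simp
    | succ m ih =>
      intro hm'
      have h1 := ih (by omega)
      have h2 := hstep m (by omega)
      rw [sum_range_succ, sum_range_succ, sum_range_succ]
      push_cast
      linarith
  have h1 := hsum T le_rfl
  have h2 : E.ε / (4 * lam) * ∑ n ∈ range T, F n ≤ E.ε / (4 * lam) * ∑ n ∈ range (T + 1), F n :=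
    mul_le_mul_of_nonneg_left (sum_range_succ_le hF0 T) (by positivity)
  have hRk := E.R_pos k
  have h3 : C / E.R k * ∑ n ∈ range T, S (n + 1) ≤ C / E.R k * ∑ n ∈ range (T + 1), S n :=
    mul_le_mul_of_nonneg_left (sum_shift_le hS0 T) (by positivity)
  have h4 : (T : ℝ) * ((CT + CJ) * E.ε ^ 2) ≤ (CT + CJ) * tim s K * E.ε := by
    calc _ = (CT + CJ) * E.ε * (T * E.ε) := by ring
      _ ≤ (CT + CJ) * E.ε * tim s K := mul_le_mul_of_nonneg_left hT (by positivity)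
      _ = _ := by ring
  have h5 : E.ε * (lam / 4) * I T ≤ lam / 4 * CI * E.ε := by
    have := hI E hE _ (hPn T) k hk
    calc _ ≤ E.ε * (lam / 4) * CI := mul_le_mul_of_nonneg_left this (by positivity)
      _ = _ := by ring
  have h6 : C / E.R k * ∑ n ∈ range (T + 1), S n ≤
      C / E.M / tim s k * ∑ j ∈ range (k + 1), 2 ^ j / 2 ^ k *
            √((E.ε * ∑ n ∈ range (T + 1), E.Yk (E.chain a n) j / (2 ^ j) ^ 2)
              * (E.ε * ∑ n ∈ range (T + 1), E.Xk (E.chain a n) k)) := by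
    have e1 : C / E.R k * ∑ n ∈ range (T + 1), S n =
        C / E.M / tim s k * ∑ j ∈ range (k + 1), E.ε / 2 ^ k *
          ∑ n ∈ range (T + 1), √(E.Yk (E.chain a n) j * E.Xk (E.chain a n) k) := by
      rw [hS, sum_comm, ← mul_sum, ← mul_assoc]
      congr 1
      unfold Env.R Rad
      field_simp
    rw [e1]
    refine mul_le_mul_of_nonneg_left (sum_le_sum fun j hj => ?_) (by positivity)
    have hjk : j ≤ E.K := by
      have := mem_range.1 hj
      omega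
    have hY : ∀ n, 0 ≤ E.Yk (E.chain a n) j := fun n => Yk_nonneg E _ hjk
    have hX : ∀ n, 0 ≤ E.Xk (E.chain a n) k := fun n => Xk_nonneg E _ hkE
    have e2 : ∀ n, √(E.Yk (E.chain a n) j * E.Xk (E.chain a n) k) =
        2 ^ j * √(E.Yk (E.chain a n) j / (2 ^ j) ^ 2 * E.Xk (E.chain a n) k) := by
      intro n
      have h7 : E.Yk (E.chain a n) j * E.Xk (E.chain a n) k =
          (2 ^ j) ^ 2 * (E.Yk (E.chain a n) j / (2 ^ j) ^ 2 * E.Xk (E.chain a n) k) := by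
        field_simp
      rw [h7, Real.sqrt_mul (by positivity), Real.sqrt_sq (by positivity)]
    have e3 : √((E.ε * ∑ n ∈ range (T + 1), E.Yk (E.chain a n) j / (2 ^ j) ^ 2)
              * (E.ε * ∑ n ∈ range (T + 1), E.Xk (E.chain a n) k)) =
        E.ε * √((∑ n ∈ range (T + 1), E.Yk (E.chain a n) j / (2 ^ j) ^ 2)
              * ∑ n ∈ range (T + 1), E.Xk (E.chain a n) k) := by
      rw [show (E.ε * ∑ n ∈ range (T + 1), E.Yk (E.chain a n) j / (2 ^ j) ^ 2)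
              * (E.ε * ∑ n ∈ range (T + 1), E.Xk (E.chain a n) k) =
        E.ε ^ 2 * ((∑ n ∈ range (T + 1), E.Yk (E.chain a n) j / (2 ^ j) ^ 2)
              * ∑ n ∈ range (T + 1), E.Xk (E.chain a n) k) by ring,
        Real.sqrt_mul (sq_nonneg _), Real.sqrt_sq hε.le]
    rw [sum_congr rfl fun n _ => e2 n, ← mul_sum, e3]
    have h8 := sum_sqrt_le (range (T + 1)) (fun n => E.Yk (E.chain a n) j / (2 ^ j) ^ 2)
      (fun n => E.Xk (E.chain a n) k) (fun n => div_nonneg (hY n) (by positivity)) hX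
    calc _ = 2 ^ j / 2 ^ k * E.ε * ∑ n ∈ range (T + 1),
          √(E.Yk (E.chain a n) j / (2 ^ j) ^ 2 * E.Xk (E.chain a n) k) := by ring
      _ ≤ 2 ^ j / 2 ^ k * E.ε * √((∑ n ∈ range (T + 1), E.Yk (E.chain a n) j / (2 ^ j) ^ 2)
              * ∑ n ∈ range (T + 1), E.Xk (E.chain a n) k) :=
          mul_le_mul_of_nonneg_left h8 (by positivity)
      _ = _ := by ring
  have h7 : lam / 4 * (E.ε * ∑ n ∈ range (T + 1), I n) =
      E.ε * (lam / 4) * ∑ n ∈ range T, I n + E.ε * (lam / 4) * I T := by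
    rw [sum_range_succ]
    ring
  have h8 : (E.ε * ∑ n ∈ range (T + 1), F n) / (4 * lam) =
      E.ε / (4 * lam) * ∑ n ∈ range (T + 1), F n := by ring
  rw [h7, h8]
  linarith

end KD.I.S2
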